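import Pool.Agent.H209.Level3

set_option autoImplicit false

/-!
# Harmonic measure in ball and chain domains: an explicit family and explicit exponents

The theorem `result` below gives, for every `k`, a ball and chain domain with `n = 2 ^ k` discs of
radius `ε = (√2 / 8) 10 ^ (-20 k)` for which the harmonic measure `w(z₀, Ω)` of the discs is at
least `10 ^ (-9) (1.42 · 10 ^ (-10)) ^ k`.  So the bound `w(z₀, Ω) ≤ C (n ε) ^ (1/2 - δ)` fails for
every `δ ≤ 1/12000`, and `w(z₀, Ω) ≤ C n ^ β ε ^ (1/2)` fails for every `β ≤ 0.505`.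

* `BallAndChain n ε Ω c`: the domain `Ω` is open and simply connected (in particular nonempty and
  path connected), `n ≥ 1`, `0 < ε < 1/n`, the real centres `c 0, …, c (n-1)` lie in `[0,1]`, the
  closed discs of radius `ε` about them are pairwise disjoint and lie in the complement of `Ω`.
* `w z₀ n ε Ω c`: harmonic measure at `z₀` of the part of `∂Ω` lying on the discs; harmonic measure
  is the Perron infimum of the superharmonic majorants, see `Pool.Agent.H209.harmonicMeasure`.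
-/

namespace Pool.Agent.Results.MP_30cfc2_an.ExplicitExponent

open Set Metric Topology Filter Complex Pool.Agent.H209

/-- Ball and chain domain with `n` discs of radius `ε` and real centres `c j ∈ [0,1]`. -/
structure BallAndChain (n : ℕ) (ε : ℝ) (Ω : Set ℂ) (c : Fin n → ℝ) : Prop where
  one_le : 1 ≤ n
  eps_pos : 0 < ε
  eps_lt : ε < 1 / n
  isOpen : IsOpen Ω
  simplyConnected : IsSimplyConnected Ω
  centre_mem : ∀ j, c j ∈ Icc (0 : ℝ) 1
  disjoint : Pairwise fun i j => Disjoint (closedBall (c i : ℂ) ε) (closedBall (c j : ℂ) ε)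
  subset_compl : ∀ j, closedBall (c j : ℂ) ε ⊆ Ωᶜ

/-- Harmonic measure at `z₀` of the union of the discs. -/
noncomputable def w (z₀ : ℂ) (n : ℕ) (ε : ℝ) (Ω : Set ℂ) (c : Fin n → ℝ) : ℝ :=
  harmonicMeasure z₀ (frontier Ω ∩ ⋃ j, closedBall (c j : ℂ) ε) Ω

/-- The linear part of the final similarity. -/
noncomputable def aa : ℂ := (1 + I) / 8

lemma norm_aa : ‖aa‖ = r2 / 8 := by
  unfold aa
  rw [norm_div]
  have h1 : ‖(8:ℂ)‖ = 8 := by simp
  have h2 : ‖(1:ℂ) + I‖ = r2 := by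
    unfold r2
    rw [← Real.sqrt_sq (norm_nonneg ((1:ℂ) + I)), Complex.sq_norm, normSq_apply]
    congr 1
    simp
    norm_num
  rw [h1, h2]

lemma aa_ne : aa ≠ 0 := by
  rw [← norm_pos_iff, norm_aa]
  have := r2_pos
  positivity

/-- One configuration for each level. -/
lemma config (k : ℕ) : ∃ (ε : ℝ) (Ω : Set ℂ) (c : Fin (2 ^ k) → ℝ) (z₀ : ℂ),
    ε = ‖aa‖ / (10 ^ 20) ^ k ∧ BallAndChain (2 ^ k) ε Ω c ∧ z₀ ∈ Ω ∧
    (∀ j, 1 ≤ infDist z₀ (closedBall (c j : ℂ) ε)) ∧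
    (1 / 10 ^ 9) * (1.42 / 10 ^ 10) ^ k ≤ w z₀ (2 ^ k) ε Ω c := by
  obtain ⟨V, Ω, T, sg, h⟩ := level_exists k
  set r : ℝ := 1 / (10 ^ 20) ^ k with hr
  set om : ℝ := (1 / 10 ^ 9) * (1.42 / 10 ^ 10) ^ k with hom
  have hna := norm_aa
  have hr2 := r2_gt
  have hr2' := r2_lt
  norm_num at hr2 hr2'
  have hnapos : 0 < ‖aa‖ := norm_pos_iff.mpr aa_ne
  have hna1 : 1 / 8 ≤ ‖aa‖ := by rw [hna]; linarith
  have hna2 : ‖aa‖ < 1 := by rw [hna]; linarith
  -- the similarity and its inverse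
  set b : ℂ := 1 / 2 - I * (sg / 8) with hb
  set chi : ℂ → ℂ := fun z => aa⁻¹ * z + (-(aa⁻¹ * b)) with hchi
  set Psi : ℂ → ℂ := fun z => aa * z + b with hPsi
  have hcp : ∀ z, chi (Psi z) = z := by
    intro z
    simp only [hchi, hPsi]
    have := inv_mul_cancel₀ aa_ne
    linear_combination z * this
  have hpc : ∀ z, Psi (chi z) = z := by
    intro z
    simp only [hchi, hPsi]
    have := mul_inv_cancel₀ aa_ne
    linear_combination (z - b) * this
  have hchic : Continuous chi := by simp only [hchi]; fun_prop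
  have hPsic : Continuous Psi := by simp only [hPsi]; fun_prop
  let e : ℂ ≃ₜ ℂ :=
    { toFun := chi
      invFun := Psi
      left_inv := hpc
      right_inv := hcp
      continuous_toFun := hchic
      continuous_invFun := hPsic }
  have hnorm : ∀ z t, ‖z - Psi t‖ = ‖aa‖ * ‖chi z - t‖ := by
    intro z t
    rw [← norm_mul]
    congr 1
    nth_rw 1 [← hpc z]
    simp only [hPsi]; ring
  have hsim : IsSim chi ‖aa⁻¹‖ := isSim_affine aa⁻¹ _ (inv_ne_zero aa_ne)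
  -- centres
  have hcard : T.card = 2 ^ k := h.card
  let idx : Fin (2 ^ k) ≃ T := (finCongr hcard.symm).trans T.equivFin.symm
  let c : Fin (2 ^ k) → ℝ := fun j => (Psi (idx j)).re
  have hPim : ∀ t ∈ T, (Psi t).im = 0 := by
    intro t ht
    have h1 := h.line t ht
    simp only [hPsi, aa, hb]
    have e1 : ((1 + I) / 8 * t + (1 / 2 - I * ((sg : ℂ) / 8))).im =
        (t.re + t.im) / 8 - sg / 8 := by
      have : (1 + I) / 8 * t + (1 / 2 - I * ((sg : ℂ) / 8)) =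
        (((1 / 8 : ℝ) : ℂ)) * ((1 + I) * t) + ((1 / 2 : ℝ) : ℂ) - ((sg / 8 : ℝ) : ℂ) * I := by
        push_cast; ring
      rw [this, sub_im, add_im, im_ofReal_mul, mul_im, im_ofReal_mul, ofReal_im]
      simp
      ring
    rw [e1, h1]; ring
  have hPre : ∀ t : ℂ, (Psi t).re = (t.re - t.im) / 8 + 1 / 2 := by
    intro t
    simp only [hPsi, aa, hb]
    have : (1 + I) / 8 * t + (1 / 2 - I * ((sg : ℂ) / 8)) =
        (((1 / 8 : ℝ) : ℂ)) * ((1 + I) * t) + ((1 / 2 : ℝ) : ℂ) - ((sg / 8 : ℝ) : ℂ) * I := by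
        push_cast; ring
    rw [this, sub_re, add_re, re_ofReal_mul, mul_re, re_ofReal_mul, ofReal_re]
    simp
    ring
  have hcP : ∀ j, ((c j : ℝ) : ℂ) = Psi (idx j) := by
    intro j
    apply Complex.ext
    · rw [ofReal_re]
    · rw [ofReal_im, hPim _ (idx j).2]
  have hmemball : ∀ j z, z ∈ closedBall ((c j : ℝ) : ℂ) (‖aa‖ * r) ↔ ‖chi z - idx j‖ ≤ r := by
    intro j z
    rw [mem_closedBall, dist_eq_norm, hcP, hnorm]
    exact mul_le_mul_iff_right₀ hnapos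
  have hballs : ∀ j z, z ∈ closedBall ((c j : ℝ) : ℂ) (‖aa‖ * r) → chi z ∈ Bal T r := by
    intro j z hz
    exact ⟨idx j, (idx j).2, (hmemball j z).mp hz⟩
  have hbal : ∀ z, chi z ∈ Bal T r → ∃ j, z ∈ closedBall ((c j : ℝ) : ℂ) (‖aa‖ * r) := by
    rintro z ⟨t, ht, hz⟩
    refine ⟨idx.symm ⟨t, ht⟩, ?_⟩
    rw [hmemball, Equiv.apply_symm_apply]
    exact hz
  have hε : ‖aa‖ / (10 ^ 20) ^ k = ‖aa‖ * r := by rw [hr]; ring
  have hrpos : 0 < r := h.rpos
  refine ⟨‖aa‖ / (10 ^ 20) ^ k, chi ⁻¹' Ω, c, Psi ((10 ^ 8 : ℝ) : ℂ), rfl, ?_, ?_, ?_, ?_⟩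
  · rw [hε]
    refine ⟨Nat.one_le_two_pow, mul_pos hnapos hrpos, ?_, h.isOpen.preimage hchic,
      (e.isSimplyConnected_preimage).mpr h.simply, ?_, ?_, ?_⟩
    · rw [lt_div_iff₀ (by positivity), hr]
      push_cast
      rw [mul_one_div, div_mul_eq_mul_div, div_lt_one (by positivity)]
      calc ‖aa‖ * 2 ^ k < 1 * 2 ^ k := mul_lt_mul_of_pos_right hna2 (by positivity)
        _ = 2 ^ k := one_mul _
        _ ≤ (10 ^ 20) ^ k := pow_le_pow_left₀ (by norm_num) (by norm_num) k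
    · intro j
      have h1 := norm_le_of_mem h (idx j).2
      have h2 := abs_re_le_norm (idx j : ℂ)
      have h3 := abs_im_le_norm (idx j : ℂ)
      rw [abs_le] at h2 h3
      show (Psi (idx j)).re ∈ Icc (0:ℝ) 1
      rw [hPre]
      constructor <;> linarith [h2.1, h2.2, h3.1, h3.2]
    · intro i j hij
      rw [Set.disjoint_left]
      intro z hz1 hz2
      rw [hmemball] at hz1 hz2
      have hne : (idx i : ℂ) ≠ idx j := fun heq => hij (idx.injective (Subtype.ext heq))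
      have h1 := h.sep _ (idx i).2 _ (idx j).2 hne
      have h2 := norm_sub_le (chi z - idx j) (chi z - idx i)
      have h3 : (chi z - idx j) - (chi z - idx i) = (idx i : ℂ) - idx j := by ring
      rw [h3] at h2
      linarith
    · intro j z hz hzΩ
      exact h.disj _ (hballs j z hz) hzΩ
  · show chi (Psi ((10 ^ 8 : ℝ) : ℂ)) ∈ Ω
    rw [hcp]
    rw [h.shape]
    · constructor
      · rw [Complex.norm_of_nonneg (by norm_num)]; norm_num
      · rintro ⟨_, h2⟩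
        rw [ofReal_re] at h2
        norm_num at h2
    · left
      rw [ofReal_re]; norm_num
  · intro j
    rw [hε]
    rw [Metric.le_infDist (nonempty_closedBall.mpr (mul_pos hnapos hrpos).le)]
    intro z hz
    rw [hmemball] at hz
    rw [dist_comm, dist_eq_norm, hnorm]
    have h1 := norm_le_of_mem h (idx j).2
    have h2 := norm_sub_norm_le ((10 ^ 8 : ℝ) : ℂ) (((10 ^ 8 : ℝ) : ℂ) - chi z)
    rw [Complex.norm_of_nonneg (by norm_num), sub_sub_cancel, norm_sub_rev _ (chi z)] at h2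
    have h3 := norm_add_le (chi z - idx j) (idx j : ℂ)
    rw [sub_add_cancel] at h3
    have h4 := h.rle
    have h5 : (10:ℝ) ≤ ‖chi z - ((10 ^ 8 : ℝ) : ℂ)‖ := by
      norm_num at h2 ⊢
      linarith
    nlinarith
  · have hVc : Continuous (fun z => V (chi z)) := h.cont.comp hchic
    have hopen : IsOpen (chi ⁻¹' Ω) := h.isOpen.preimage hchic
    have hbdd : Bornology.IsBounded (chi ⁻¹' Ω) := by
      rw [isBounded_iff_forall_norm_le]
      refine ⟨‖aa‖ * 10 ^ 16 + ‖b‖, fun z hz => ?_⟩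
      have h1 := h.bdd _ hz
      have h2 : z = aa * chi z + b := (hpc z).symm
      have h3 := norm_add_le (aa * chi z) b
      rw [← h2, norm_mul] at h3
      have h4 : ‖aa‖ * ‖chi z‖ ≤ ‖aa‖ * 10 ^ 16 := mul_le_mul_of_nonneg_left h1.le hnapos.le
      linarith
    have hz0 : Psi ((10 ^ 8 : ℝ) : ℂ) ∈ chi ⁻¹' Ω := by
      show chi (Psi ((10 ^ 8 : ℝ) : ℂ)) ∈ Ω
      rw [hcp, h.shape]
      · constructor
        · rw [Complex.norm_of_nonneg (by norm_num)]; norm_num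
        · rintro ⟨_, h2⟩
          rw [ofReal_re] at h2
          norm_num at h2
      · left
        rw [ofReal_re]; norm_num
    have key := le_harmonicMeasure (Ω := chi ⁻¹' Ω) hopen hbdd (V := fun z => V (chi z)) hVc
      (fun z hz => SubMeanAt.comp_sim hsim (h.sub _ (fun hb => h.disj _ hb hz)))
      (E := frontier (chi ⁻¹' Ω) ∩ ⋃ j, closedBall ((c j : ℝ) : ℂ) (‖aa‖ / (10 ^ 20) ^ k))
      (by
        intro z hz hzE
        have hzΩ : chi z ∉ Ω := by
          rw [hopen.frontier_eq] at hz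
          exact hz.2
        have hzB : chi z ∉ Bal T r := by
          intro hb
          obtain ⟨j, hj⟩ := hbal z hb
          apply hzE
          refine ⟨hz, mem_iUnion.mpr ⟨j, ?_⟩⟩
          rw [hε]; exact hj
        exact (h.zero _ hzΩ hzB).le)
      (by
        rintro z ⟨_, hz⟩
        obtain ⟨j, hj⟩ := mem_iUnion.mp hz
        rw [hε] at hj
        exact h.le_one _ (hballs j z hj))
      hz0
    refine le_trans ?_ key
    show om ≤ V (chi (Psi ((10 ^ 8 : ℝ) : ℂ)))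
    rw [hcp]
    have h1 := h.low ((10 ^ 8 : ℝ) : ℂ) (by rw [Complex.norm_of_nonneg (by norm_num)])
    refine le_trans ?_ h1
    have h2 : 1 ≤ H ((10 ^ 8 : ℝ) : ℂ) := by
      unfold H
      rw [Complex.norm_of_nonneg (by norm_num), ofReal_re]
      rw [Real.one_le_sqrt]
      norm_num
    have := h.ompos
    nlinarith

lemma numeric : ((2:ℝ) / 10 ^ 20) ^ ((1:ℝ) / 2 - 1 / 12000) < 1.42 / 10 ^ 10 := by
  set x : ℝ := 2 / 10 ^ 20 with hx
  have hx0 : 0 < x := by rw [hx]; norm_num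
  have h1 : (x ^ ((1:ℝ) / 2 - 1 / 12000)) ^ 12000 = x ^ 5999 := by
    rw [← Real.rpow_natCast, ← Real.rpow_mul hx0.le, ← Real.rpow_natCast x 5999]
    congr 1
    norm_num
  have h2 : ((1.42:ℝ) / 10 ^ 10) ^ 12000 = x ^ 6000 * 1.0082 ^ 6000 := by
    have e : (12000:ℕ) = 2 * 6000 := rfl
    rw [e, pow_mul, ← mul_pow]
    congr 1
    rw [hx]; norm_num
  have h3 : (2:ℝ) ≤ 1.0082 ^ 85 := by norm_num
  have h4 : (2:ℝ) ^ 70 ≤ 1.0082 ^ 6000 := by
    calc (2:ℝ) ^ 70 ≤ (1.0082 ^ 85) ^ 70 := pow_le_pow_left₀ (by norm_num) h3 70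
      _ = 1.0082 ^ 5950 := by rw [← pow_mul]
      _ ≤ 1.0082 ^ 6000 := pow_le_pow_right₀ (by norm_num) (by norm_num)
  have h5 : 1 < x * 1.0082 ^ 6000 := by
    have h6 : 1 < x * 2 ^ 70 := by rw [hx]; norm_num
    exact lt_of_lt_of_le h6 (mul_le_mul_of_nonneg_left h4 hx0.le)
  have h7 : (x ^ ((1:ℝ) / 2 - 1 / 12000)) ^ 12000 < ((1.42:ℝ) / 10 ^ 10) ^ 12000 := by
    rw [h1, h2]
    have e : x ^ 6000 = x ^ 5999 * x := pow_succ x 5999
    rw [e, mul_assoc]
    have h8 : 0 < x ^ 5999 := pow_pos hx0 _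
    calc x ^ 5999 = x ^ 5999 * 1 := (mul_one _).symm
      _ < x ^ 5999 * (x * 1.0082 ^ 6000) := mul_lt_mul_of_pos_left h5 h8
  exact lt_of_pow_lt_pow_left₀ 12000 (by norm_num) h7

/-- **Explicit domains and explicit exponents.**
(1) For every `k` there is a ball and chain domain with `2 ^ k` discs of radius
`ε = (√2 / 8) / 10 ^ (20 k)` and a point `z₀` at distance at least `1` from all the discs such that
the harmonic measure at `z₀` of the discs is at least `10 ^ (-9) (1.42 / 10 ^ 10) ^ k`.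
(2) Hence for every `δ ≤ 1 / 12000` and every `C` some ball and chain domain has
`w > C (n ε) ^ (1/2 - δ)`.
(3) For every `β ≤ 0.505` and every `C` some ball and chain domain has `w > C n ^ β ε ^ (1/2)`. -/
theorem result :
    (∀ k : ℕ, ∃ (Ω : Set ℂ) (c : Fin (2 ^ k) → ℝ) (z₀ : ℂ),
      BallAndChain (2 ^ k) (Real.sqrt 2 / 8 / (10 ^ 20) ^ k) Ω c ∧ z₀ ∈ Ω ∧
      (∀ j, 1 ≤ infDist z₀ (closedBall (c j : ℂ) (Real.sqrt 2 / 8 / (10 ^ 20) ^ k))) ∧
      1 / 10 ^ 9 * (1.42 / 10 ^ 10) ^ k ≤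
        w z₀ (2 ^ k) (Real.sqrt 2 / 8 / (10 ^ 20) ^ k) Ω c) ∧
    (∀ δ : ℝ, δ ≤ 1 / 12000 → ∀ C : ℝ, 0 < C →
      ∃ (n : ℕ) (ε : ℝ) (Ω : Set ℂ) (c : Fin n → ℝ) (z₀ : ℂ),
        BallAndChain n ε Ω c ∧ z₀ ∈ Ω ∧ (∀ j, 1 ≤ infDist z₀ (closedBall (c j : ℂ) ε)) ∧
        C * ((n : ℝ) * ε) ^ (1 / 2 - δ) < w z₀ n ε Ω c) ∧
    (∀ β : ℝ, β ≤ 0.505 → ∀ C : ℝ, 0 < C →
      ∃ (n : ℕ) (ε : ℝ) (Ω : Set ℂ) (c : Fin n → ℝ) (z₀ : ℂ),
        BallAndChain n ε Ω c ∧ z₀ ∈ Ω ∧ (∀ j, 1 ≤ infDist z₀ (closedBall (c j : ℂ) ε)) ∧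
        C * ((n : ℝ) ^ β * ε ^ ((1:ℝ) / 2)) < w z₀ n ε Ω c) := by
  have hr2 : r2 = Real.sqrt 2 := rfl
  have hnapos : 0 < ‖aa‖ := norm_pos_iff.mpr aa_ne
  have hna1 : ‖aa‖ ≤ 1 := by
    rw [norm_aa]
    have := r2_lt
    norm_num at this
    linarith
  refine ⟨fun k => ?_, fun δ hδ C hC => ?_, fun β hβ C hC => ?_⟩
  · obtain ⟨ε, Ω, c, z₀, hε, hbc, hz, hd, hw⟩ := config k
    rw [norm_aa, hr2] at hε
    subst hε
    exact ⟨Ω, c, z₀, hbc, hz, hd, hw⟩
  · set q : ℝ := ((2:ℝ) / 10 ^ 20) ^ (1 / 2 - δ) with hq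
    have hqpos : 0 < q := Real.rpow_pos_of_pos (by norm_num) _
    set s : ℝ := 1.42 / 10 ^ 10 with hs
    have hspos : 0 < s := by rw [hs]; norm_num
    have hδ1 : q < s := lt_of_le_of_lt
      (Real.rpow_le_rpow_of_exponent_ge (by norm_num) (by norm_num) (by linarith)) numeric
    have hratio : q / s < 1 := (div_lt_one hspos).mpr hδ1
    obtain ⟨k, hk⟩ := exists_pow_lt_of_lt_one (show 0 < (1 / 10 ^ 9) / C by positivity) hratio
    obtain ⟨ε, Ω, c, z₀, hε, hbc, hz, hd, hw⟩ := config k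
    refine ⟨2 ^ k, ε, Ω, c, z₀, hbc, hz, hd, lt_of_lt_of_le ?_ hw⟩
    have h1 : (((2 ^ k : ℕ) : ℝ) * ε) = ‖aa‖ * ((2:ℝ) / 10 ^ 20) ^ k := by
      rw [hε, div_pow]; push_cast; ring
    rw [h1, Real.mul_rpow hnapos.le (by positivity)]
    have h2 : (((2:ℝ) / 10 ^ 20) ^ k) ^ (1 / 2 - δ) = q ^ k := by
      rw [hq, Real.rpow_pow_comm (by norm_num)]
    rw [h2]
    have h3 : ‖aa‖ ^ (1 / 2 - δ) ≤ 1 := Real.rpow_le_one hnapos.le hna1 (by linarith)
    have h4 : q ^ k < (1 / 10 ^ 9) / C * s ^ k := by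
      rw [div_pow, div_lt_iff₀ (by positivity)] at hk
      exact hk
    have h5 : 0 < q ^ k := by positivity
    calc C * (‖aa‖ ^ (1 / 2 - δ) * q ^ k) ≤ C * (1 * q ^ k) := by
          apply mul_le_mul_of_nonneg_left _ hC.le
          exact mul_le_mul_of_nonneg_right h3 h5.le
      _ = C * q ^ k := by ring
      _ < C * ((1 / 10 ^ 9) / C * s ^ k) := mul_lt_mul_of_pos_left h4 hC
      _ = (1 / 10 ^ 9) * s ^ k := by field_simp
  · -- `2 ^ β < 1.42`
    set q : ℝ := (2:ℝ) ^ β with hq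
    have hqpos : 0 < q := Real.rpow_pos_of_pos (by norm_num) _
    have hq2 : q < 1.42 := by
      have h1 : q ≤ (2:ℝ) ^ (0.505:ℝ) := Real.rpow_le_rpow_of_exponent_le (by norm_num) hβ
      refine lt_of_le_of_lt h1 ?_
      have h2 : ((2:ℝ) ^ (0.505:ℝ)) ^ 200 = 2 ^ 101 := by
        rw [← Real.rpow_natCast, ← Real.rpow_mul (by norm_num), ← Real.rpow_natCast 2 101]
        congr 1
        norm_num
      refine lt_of_pow_lt_pow_left₀ 200 (by norm_num) ?_
      rw [h2]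
      norm_num
    have hratio : q / 1.42 < 1 := (div_lt_one (by norm_num)).mpr hq2
    obtain ⟨k, hk⟩ := exists_pow_lt_of_lt_one (show 0 < (1 / 10 ^ 9) / C by positivity) hratio
    obtain ⟨ε, Ω, c, z₀, hε, hbc, hz, hd, hw⟩ := config k
    refine ⟨2 ^ k, ε, Ω, c, z₀, hbc, hz, hd, lt_of_lt_of_le ?_ hw⟩
    have h1 : (((2 ^ k : ℕ) : ℝ)) ^ β = q ^ k := by
      push_cast
      rw [hq, Real.rpow_pow_comm (by norm_num)]
    have h2 : ε ^ ((1:ℝ) / 2) ≤ (1 / 10 ^ 10) ^ k := by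
      have h3 : ε ≤ ((1 / 10 ^ 10) ^ k) ^ 2 := by
        have e1 : ((1:ℝ) / 10 ^ 10) ^ 2 = 1 / 10 ^ 20 := by norm_num
        have e : (((1:ℝ) / 10 ^ 10) ^ k) ^ 2 = 1 / (10 ^ 20) ^ k := by
          rw [← pow_mul, mul_comm, pow_mul, e1, div_pow, one_pow]
        rw [hε, e]
        exact div_le_div_of_nonneg_right hna1 (by positivity)
      have h4 : 0 ≤ ε := by rw [hε]; positivity
      calc ε ^ ((1:ℝ) / 2) ≤ (((1 / 10 ^ 10) ^ k) ^ 2) ^ ((1:ℝ) / 2) :=
            Real.rpow_le_rpow h4 h3 (by norm_num)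
        _ = (1 / 10 ^ 10) ^ k := by
            rw [← Real.sqrt_eq_rpow, Real.sqrt_sq (by positivity)]
    rw [h1]
    have h4 : q ^ k < (1 / 10 ^ 9) / C * 1.42 ^ k := by
      rw [div_pow, div_lt_iff₀ (by positivity)] at hk
      exact hk
    have h5 : 0 < q ^ k := by positivity
    have h6 : (0:ℝ) < (1 / 10 ^ 10) ^ k := by positivity
    calc C * (q ^ k * ε ^ ((1:ℝ) / 2)) ≤ C * (q ^ k * (1 / 10 ^ 10) ^ k) := by
          apply mul_le_mul_of_nonneg_left _ hC.le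
          exact mul_le_mul_of_nonneg_left h2 h5.le
      _ = C * (1 / 10 ^ 10) ^ k * q ^ k := by ring
      _ < C * (1 / 10 ^ 10) ^ k * ((1 / 10 ^ 9) / C * 1.42 ^ k) :=
          mul_lt_mul_of_pos_left h4 (by positivity)
      _ = (1 / 10 ^ 9) * (1.42 / 10 ^ 10) ^ k := by
          rw [div_pow (1.42:ℝ), div_pow (1:ℝ), one_pow]
          field_simp

end Pool.Agent.Results.MP_30cfc2_an.ExplicitExponent
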